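import Pool.Agent.H79.PRK.S6

/-!
# PRK, LAWK: the law for the twists of almost all polynomials
-/

set_option autoImplicit false

namespace Pool.PRK

open Polynomial Matrix Pool.HYP Pool.TOW Pool.AVS Pool.T1 IsDedekindDomain

namespace Lawk73

section Sets

variable {R : Type} [CommRing R] [IsDomain R]

theorem mem_sb {T S : Finset (HeightOneSpectrum R)} {P : {P : HeightOneSpectrum R // P ∈ T}} :
    P ∈ sb T S ↔ (P : HeightOneSpectrum R) ∈ S := by
  classical
  unfold sb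
  rw [Finset.mem_filter]
  exact ⟨fun h => h.2, fun h => ⟨Finset.mem_univ _, h⟩⟩

theorem sb_inj {T S S' : Finset (HeightOneSpectrum R)} (hS : S ⊆ T) (hS' : S' ⊆ T)
    (h : sb T S = sb T S') : S = S' := by
  ext P
  constructor
  · intro hP
    have h1 : (⟨P, hS hP⟩ : {P : HeightOneSpectrum R // P ∈ T}) ∈ sb T S := mem_sb.2 hP
    rw [h] at h1
    exact mem_sb.1 h1
  · intro hP
    have h1 : (⟨P, hS' hP⟩ : {P : HeightOneSpectrum R // P ∈ T}) ∈ sb T S' := mem_sb.2 hP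
    rw [← h] at h1
    exact mem_sb.1 h1

theorem sb_card {T S : Finset (HeightOneSpectrum R)} (hS : S ⊆ T) : (sb T S).card = S.card := by
  refine Finset.card_bij (fun P _ => (P : HeightOneSpectrum R)) ?_ ?_ ?_
  · intro P hP
    exact mem_sb.1 hP
  · intro P _ Q _ h
    exact Subtype.ext h
  · intro P hP
    exact ⟨⟨P, hS hP⟩, mem_sb.2 hP, rfl⟩

theorem mem_Sl {T S : Finset (HeightOneSpectrum R)} :
    S ∈ Sl T ↔ S ⊆ T ∧ (S.card = T.card / 2 ∨ S.card = T.card / 2 + 1) := by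
  unfold Sl
  rw [Finset.mem_filter, Finset.mem_powerset]

theorem mem_sl {T : Type} [Fintype T] [DecidableEq T] {k : ℕ} {D : Finset T} :
    D ∈ PRL.sl Finset.univ ∅ k ↔ D.card = k := by
  unfold PRL.sl
  rw [Finset.mem_filter, Finset.inter_univ]
  constructor
  · exact fun h => h.2.2
  · intro h
    refine ⟨Finset.mem_univ _, ?_, h⟩
    rw [Finset.sdiff_eq_empty_iff_subset]
    exact Finset.subset_univ D

theorem card_sl {T : Type} [Fintype T] [DecidableEq T] (k : ℕ) :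
    (PRL.sl (Finset.univ : Finset T) ∅ k).card = (Fintype.card T).choose k := by
  have h : PRL.sl (Finset.univ : Finset T) ∅ k = Finset.powersetCard k Finset.univ := by
    ext D
    rw [mem_sl, Finset.mem_powersetCard]
    exact ⟨fun h => ⟨Finset.subset_univ D, h⟩, fun h => h.2⟩
  rw [h, Finset.card_powersetCard]
  rfl

theorem choose_succ (j : ℕ) : (2 * j + 1).choose (j + 1) = (2 * j + 1).choose j := by
  have h := Nat.choose_symm_add (a := j + 1) (b := j)
  rw [show j + 1 + j = 2 * j + 1 by ring] at h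
  exact h

end Sets

section Comb

variable {T : Type} [Fintype T] [DecidableEq T]

/-- The two slices, and the parity of the exponents. -/
theorem two_slices (hPAR : PRL.PARStmt) {j : ℕ} (hT : Fintype.card T = 2 * j + 1)
    (M : AddSubgroup (T → Pool.HYP.Ty)) (hq : ∀ m ∈ M, PRL.qf m = 0)
    (hM : Nat.card M = 2 ^ Fintype.card T) :
    (PRL.sl (Finset.univ : Finset T) ∅ j ∪ PRL.sl Finset.univ ∅ (j + 1)).card =
      2 * (2 * j + 1).choose j ∧
    (∀ D : Finset T, ∃ r : ℕ, {m | m ∈ M ∧ m ∈ PRL.LS D}.ncard = 2 ^ r) ∧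
    {D | D ∈ PRL.sl (Finset.univ : Finset T) ∅ j ∪ PRL.sl Finset.univ ∅ (j + 1) ∧
      ∃ r, Even r ∧ {m | m ∈ M ∧ m ∈ PRL.LS D}.ncard = 2 ^ r}.ncard = (2 * j + 1).choose j := by
  obtain ⟨s, hs⟩ := hPAR T M hq hM
  have hdisj : Disjoint (PRL.sl (Finset.univ : Finset T) ∅ j) (PRL.sl Finset.univ ∅ (j + 1)) := by
    rw [Finset.disjoint_left]
    intro D h1 h2
    rw [mem_sl] at h1 h2
    omega
  refine ⟨?_, fun D => ⟨(hs D).choose, (hs D).choose_spec.1⟩, ?_⟩
  · rw [Finset.card_union_of_disjoint hdisj, card_sl, card_sl, hT, choose_succ]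
    ring
  · have hev : ∀ D : Finset T, (∃ r, Even r ∧ {m | m ∈ M ∧ m ∈ PRL.LS D}.ncard = 2 ^ r) ↔
        Even (s + D.card) := by
      intro D
      obtain ⟨r, hr, hr2⟩ := hs D
      constructor
      · rintro ⟨r', h1, h2⟩
        have h3 : r' = r := Nat.pow_right_injective (le_refl 2) (h2.symm.trans hr)
        rw [h3] at h1
        rw [add_assoc, Nat.even_add] at hr2
        exact hr2.1 h1
      · intro h
        refine ⟨r, ?_, hr⟩
        rw [add_assoc, Nat.even_add] at hr2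
        exact hr2.2 h
    by_cases hsj : Even (s + j)
    · have h1 : {D | D ∈ PRL.sl (Finset.univ : Finset T) ∅ j ∪ PRL.sl Finset.univ ∅ (j + 1) ∧
          ∃ r, Even r ∧ {m | m ∈ M ∧ m ∈ PRL.LS D}.ncard = 2 ^ r} =
          ↑(PRL.sl (Finset.univ : Finset T) ∅ j) := by
        ext D
        rw [Set.mem_ofPred_eq, hev, Finset.mem_coe, Finset.mem_union, mem_sl, mem_sl]
        constructor
        · rintro ⟨h | h, h2⟩
          · exact h
          · exfalso
            rw [h, ← add_assoc, Nat.even_add_one] at h2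
            exact h2 hsj
        · intro h
          exact ⟨Or.inl h, by rw [h]; exact hsj⟩
      rw [h1, Set.ncard_coe_finset, card_sl, hT]
    · have h1 : {D | D ∈ PRL.sl (Finset.univ : Finset T) ∅ j ∪ PRL.sl Finset.univ ∅ (j + 1) ∧
          ∃ r, Even r ∧ {m | m ∈ M ∧ m ∈ PRL.LS D}.ncard = 2 ^ r} =
          ↑(PRL.sl (Finset.univ : Finset T) ∅ (j + 1)) := by
        ext D
        rw [Set.mem_ofPred_eq, hev, Finset.mem_coe, Finset.mem_union, mem_sl, mem_sl]
        constructor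
        · rintro ⟨h | h, h2⟩
          · exfalso
            rw [h] at h2
            exact hsj h2
          · exact h
        · intro h
          refine ⟨Or.inr h, ?_⟩
          rw [h, ← add_assoc, Nat.even_add_one]
          exact hsj
      rw [h1, Set.ncard_coe_finset, card_sl, hT, choose_succ]

end Comb

section Main

variable {R : Type} [CommRing R] [IsDomain R]

open Classical in
theorem image_sb {T : Finset (HeightOneSpectrum R)} {j : ℕ} (hT : T.card = 2 * j + 1) :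
    sb T '' (Sl T : Set (Finset (HeightOneSpectrum R))) =
      ↑(PRL.sl (Finset.univ : Finset {P : HeightOneSpectrum R // P ∈ T}) ∅ j ∪
        PRL.sl Finset.univ ∅ (j + 1)) := by
  have hj : T.card / 2 = j := by omega
  ext D
  simp only [Set.mem_image, Finset.mem_coe, Finset.mem_union, mem_sl, mem_Sl, hj]
  constructor
  · rintro ⟨S, ⟨hS, hc⟩, rfl⟩
    rw [sb_card hS]
    exact hc
  · intro hD
    obtain ⟨S, hS⟩ : ∃ S : Finset (HeightOneSpectrum R), S = D.image Subtype.val := ⟨_, rfl⟩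
    have hmS : ∀ P : {P : HeightOneSpectrum R // P ∈ T}, (P : HeightOneSpectrum R) ∈ S ↔ P ∈ D := by
      intro P
      rw [hS, Finset.mem_image]
      constructor
      · rintro ⟨Q, hQ, h⟩
        have : Q = P := Subtype.ext h
        rwa [← this]
      · intro h
        exact ⟨P, h, rfl⟩
    have hST : S ⊆ T := by
      intro P hP
      rw [hS, Finset.mem_image] at hP
      obtain ⟨Q, _, rfl⟩ := hP
      exact Q.2
    have hDS : sb T S = D := by
      ext P
      rw [mem_sb, hmS]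
    refine ⟨S, ⟨hST, ?_⟩, hDS⟩
    rw [← sb_card hST, hDS]
    exact hD

variable {K : Type} [Field K] [Algebra R K]

open Classical in
/-- The law for one good polynomial. -/
theorem lawT_of_good (hPAR : PRL.PARStmt) {ε η : ℝ} {k0 : ℕ}
    (hS : ∀ (T : Type) [Fintype T] [DecidableEq T] (T1 D2 : Finset T) (j : ℕ), Disjoint T1 D2 →
      T1.card = 2 * j + 1 → k0 ≤ j → ∀ M : AddSubgroup (T → PRL.Ty), (∀ m ∈ M, PRL.qf m = 0) →
      Nat.card M = 2 ^ Fintype.card T →
      ({D | D ∈ PRL.sl T1 D2 j ∪ PRL.sl T1 D2 (j + 1) ∧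
        ∃ m ∈ M, m ≠ 0 ∧ m ∈ PRL.LS D ∧ ¬ PRL.Bal η T1 D m}.ncard : ℝ) ≤
          η * ((2 * j + 1).choose j : ℝ) →
      ∀ B : ℕ, ∑ r ∈ Finset.range B, |({D | D ∈ PRL.sl T1 D2 j ∪ PRL.sl T1 D2 (j + 1) ∧
        {m | m ∈ M ∧ m ∈ PRL.LS D}.ncard = 2 ^ r}.ncard : ℝ) / ((2 * j + 1).choose j : ℝ) -
          2 * PRL.PR r| ≤ 2 * ε)
    {O : ValuationSubring K} {π : K} {g : ℕ} {Ram : Finset (HeightOneSpectrum R)}
    (hMlg : MlgP O π g Ram) (D : Dat R O) (h j : ℕ) (hOk : D.Ok g) (hRam : Ram ⊆ D.T')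
    (hT : D.T.card = 2 * j + 1) (hj : k0 ≤ j) (ϖ : HeightOneSpectrum R → R) (hϖ : Uni D.T ϖ)
    (dS : Finset (HeightOneSpectrum R) → R) (hdS : Tws D dS) (f : R[X]) (hf : f ∈ FamS π g D h)
    (hG : Good K η D ϖ j f) : LawT K ε D dS f := by
  obtain ⟨M, hq, hM, hpat, hsel⟩ := hMlg D h hOk hRam f hf ϖ hϖ hG.1
  have hcT : Fintype.card {P : HeightOneSpectrum R // P ∈ D.T} = D.T.card := Fintype.card_coe _
  have himg := image_sb hT
  have hM' : Nat.card M = 2 ^ Fintype.card {P : HeightOneSpectrum R // P ∈ D.T} := by rw [hcT, hM]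
  obtain ⟨k1, k2, k3⟩ := two_slices hPAR (by rw [hcT, hT]) M hq hM'
  have k4 := hS {P : HeightOneSpectrum R // P ∈ D.T} Finset.univ ∅ j
    (by rw [Finset.disjoint_left]; intro P _ hP; exact absurd hP (Finset.notMem_empty _))
    (by rw [Finset.card_univ, hcT, hT]) hj M hq hM' (by
      refine le_trans ?_ hG.2
      refine Nat.cast_le.2 (Set.ncard_le_ncard ?_ (Set.toFinite _))
      rintro S ⟨hS', m, hm, hm0, hmL, hmB⟩
      exact ⟨hS', m, hm0, hmL, hmB, hpat m hm hm0⟩)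
  have hsub : ∀ S ∈ Sl D.T, S ⊆ D.T := fun S hS' => (mem_Sl.1 hS').1
  have hinj : Set.InjOn (sb D.T) (Sl D.T : Set (Finset (HeightOneSpectrum R))) := by
    intro S hS' S' hS'' h
    exact sb_inj (hsub S hS') (hsub S' hS'') h
  have hsel' : ∀ S ∈ Sl D.T, (SelG (fk K (f.scaleRoots (dS S)))).Finite ∧
      (SelG (fk K (f.scaleRoots (dS S)))).ncard = {m | m ∈ M ∧ m ∈ PRL.LS (sb D.T S)}.ncard :=
    fun S hS' => hsel S (hsub S hS') (dS S) (hdS S (hsub S hS'))
  have key : ∀ Φ : ℕ → Prop, {S | S ∈ Sl D.T ∧ Φ (SelG (fk K (f.scaleRoots (dS S)))).ncard}.ncard =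
      {S | S ∈ PRL.sl (Finset.univ : Finset {P : HeightOneSpectrum R // P ∈ D.T}) ∅ j ∪
        PRL.sl Finset.univ ∅ (j + 1) ∧ Φ {m | m ∈ M ∧ m ∈ PRL.LS S}.ncard}.ncard := by
    intro Φ
    rw [← (hinj.mono fun S hS' => hS'.1).ncard_image (f := sb D.T)]
    congr 1
    ext S'
    constructor
    · rintro ⟨S, ⟨a1, a2⟩, rfl⟩
      refine ⟨?_, ?_⟩
      · have : sb D.T S ∈ sb D.T '' (Sl D.T : Set (Finset (HeightOneSpectrum R))) := ⟨S, a1, rfl⟩
        rw [himg] at this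
        exact this
      · rw [← (hsel' S a1).2]
        exact a2
    · rintro ⟨a1, a2⟩
      have : S' ∈ sb D.T '' (Sl D.T : Set (Finset (HeightOneSpectrum R))) := by
        rw [himg]
        exact a1
      obtain ⟨S, b1, b2⟩ := this
      refine ⟨S, ⟨b1, ?_⟩, b2⟩
      rw [(hsel' S b1).2, b2]
      exact a2
  have hcard : (Sl D.T).card = 2 * (2 * j + 1).choose j := by
    rw [← k1, ← Set.ncard_coe_finset (_ ∪ _), ← himg,
      hinj.ncard_image, Set.ncard_coe_finset]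
  refine ⟨fun S hS' => ?_, ?_, fun B => ?_⟩
  · obtain ⟨r, hr⟩ := k2 (sb D.T S)
    exact ⟨(hsel' S hS').1, r, by rw [(hsel' S hS').2, hr]⟩
  · rw [key (fun x => ∃ r : ℕ, Even r ∧ x = 2 ^ r), k3, hcard]
  · have h5 := k4 B
    have h6 : ∀ r : ℕ, |({S | S ∈ Sl D.T ∧
        (SelG (fk K (f.scaleRoots (dS S)))).ncard = 2 ^ r}.ncard : ℝ) / (Sl D.T).card -
        PRL.PR r| = (1 / 2) *
        |({S | S ∈ PRL.sl (Finset.univ : Finset {P : HeightOneSpectrum R // P ∈ D.T}) ∅ j ∪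
        PRL.sl Finset.univ ∅ (j + 1) ∧ {m | m ∈ M ∧ m ∈ PRL.LS S}.ncard = 2 ^ r}.ncard : ℝ) /
          ((2 * j + 1).choose j : ℝ) - 2 * PRL.PR r| := by
      intro r
      have h7 : (1 / 2 : ℝ) = |(1 / 2 : ℝ)| := by rw [abs_of_pos (by norm_num)]
      rw [key (fun x => x = 2 ^ r), hcard, h7, ← abs_mul]
      congr 1
      push_cast
      rw [mul_sub, ← mul_div_assoc]
      have hc : ((2 * j + 1).choose j : ℝ) ≠ 0 := by
        have : 0 < (2 * j + 1).choose j := Nat.choose_pos (by omega)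
        exact_mod_cast this.ne'
      field_simp
    rw [Finset.sum_congr rfl fun r _ => h6 r, ← Finset.mul_sum]
    linarith

end Main

end Lawk73

open Lawk73

/-- **LAWK.** -/
theorem lawk : LAWKStmt := by
  intro hGDF hBLC hSLC hPAR R _ _ K _ _ _ O π g T' A Ram C b hAv hDen hA hMlg hRam hfin hTw ε hε
  obtain ⟨k1, η, hη, hS⟩ := hSLC (2 * ε) (by linarith)
  obtain ⟨k2, hg⟩ := hGDF R K O π g T' A C b hBLC hAv hDen hA hfin hTw ε η hε hη
  refine ⟨max k1 k2, ?_⟩
  intro D j hOk hT' hT hj hP dS hdS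
  classical
  obtain ⟨ϖ, hϖe⟩ : ∃ ϖ : HeightOneSpectrum R → R, ∀ P, ϖ P = dS {P} := ⟨fun P => dS {P}, fun _ => rfl⟩
  have hϖ : Uni D.T ϖ := by
    intro P hPT
    have h1 := (hdS {P} (Finset.singleton_subset_iff.2 hPT)).2.1 P (Finset.mem_singleton_self P)
    rw [hϖe]
    exact h1
  obtain ⟨h₀, hh⟩ := hg D j hOk hT' hT ((le_max_right _ _).trans hj) hP ϖ hϖ
  refine ⟨h₀, fun h hh' => le_trans ?_ (hh h hh')⟩
  have hf : (FamS π g D h).Finite := (hfin D h hOk).subset fun f hf => hf.1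
  refine Nat.cast_le.2 (Set.ncard_le_ncard ?_ (hf.subset fun f hf => hf.1))
  rintro f ⟨hf1, hL⟩
  refine ⟨hf1, fun hG => hL ?_⟩
  exact lawT_of_good hPAR hS hMlg D h j hOk (by rw [hT']; exact hRam) hT
    ((le_max_left _ _).trans hj) ϖ hϖ dS hdS f hf1 hG

end Pool.PRK
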