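import Pool.Agent.H79.PRK.S1
import Pool.Agent.H96.T1.KEYK
import Pool.Agent.H98.T1.INFK
import Pool.Agent.H98.T1.NDK
import Pool.Agent.H78.T1.IRRK

/-!
# PRK, KEYY: the pair of matrices of a class with given types at the primes of `T`
-/

set_option autoImplicit false

namespace Pool.PRK

open Polynomial Matrix Pool.HYP Pool.TOW Pool.AVS Pool.T1 IsDedekindDomain

namespace Keyy73

theorem comp_inj {K : Type} [Field K] {d : K} (hd : d ≠ 0) {p q : K[X]}
    (h : p.comp (C d * X) = q.comp (C d * X)) : p = q := by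
  ext i
  have h1 := congrArg (fun r : K[X] => r.coeff i) h
  simp only [comp_C_mul_X_coeff] at h1
  exact mul_right_cancel₀ (pow_ne_zero i hd) h1

theorem pen_twist {K : Type} [Field K] {n : ℕ} (G S : Matrix (Fin n) (Fin n) K) (f : K[X])
    {d : K} (hd : d ≠ 0) (hn : f.natDegree = n) (h : (pen G S).det = C G.det * f) :
    (pen G (d • S)).det = C G.det * f.scaleRoots d := by
  apply comp_inj hd
  have h1 : (f.scaleRoots d).comp (C d * X) = C (d ^ f.natDegree) * f := by
    ext i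
    rw [comp_C_mul_X_coeff, coeff_scaleRoots, coeff_C_mul]
    rcases le_or_gt i f.natDegree with hi | hi
    · rw [mul_assoc, ← pow_add, Nat.sub_add_cancel hi, mul_comm]
    · rw [coeff_eq_zero_of_natDegree_lt hi]
      ring
  have h2 : ((pen G (d • S)).det).comp (C d * X) = (C d • pen G S).det := by
    have h3 : ((pen G (d • S)).det).comp (C d * X) =
        (Polynomial.compRingHom (C d * X)) ((pen G (d • S)).det) := rfl
    rw [h3, RingHom.map_det]
    congr 1
    refine Matrix.ext fun i j => ?_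
    show (X * C (G i j) - C (d * S i j)).comp (C d * X) = C d * (X * C (G i j) - C (S i j))
    rw [sub_comp, mul_comp, X_comp, C_comp, C_comp, C_mul]
    ring
  rw [h2, Matrix.det_smul, h, mul_comp, C_comp, h1, Fintype.card_fin, hn, C_pow]
  ring

theorem two_notMem {R : Type} [CommRing R] [IsDomain R] {K : Type} [Field K] [Algebra R K]
    [IsFractionRing R K] {O : ValuationSubring K} {π : K} (hGR : GR R O π)
    (P : HeightOneSpectrum R) : (2 : R) ∉ P.asIdeal := by
  intro h2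
  obtain ⟨p, hp, hc⟩ := hGR.char
  have hpK : (p : K) = 0 := CharP.cast_eq_zero K p
  have hpR : (p : R) = 0 := by
    apply IsFractionRing.injective R K
    rw [map_natCast, map_zero, hpK]
  have hp2 : p ≠ 2 := by
    rintro rfl
    exact hGR.two (by exact_mod_cast hpK)
  obtain ⟨k, hk⟩ := hp.odd_of_ne_two hp2
  have h3 : (1 : R) = -((k : R) * 2) := by
    have h4 : ((2 * k + 1 : ℕ) : R) = 0 := by rw [← hk, hpR]
    push_cast at h4
    linear_combination h4
  apply P.isPrime.ne_top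
  rw [Ideal.eq_top_iff_one, h3]
  exact P.asIdeal.neg_mem (P.asIdeal.mul_mem_left _ h2)

end Keyy73

open H96K Keyy73

/-- **KEYY.** -/
theorem keyy (hLATY : LATYStmt) : KEYYStmt := by
  intro R _ _ K _ _ _ O π hGR hMink g hg
  obtain ⟨C0, hC0⟩ := hMink (2 * g + 1)
  obtain ⟨c, hc⟩ := ndk R K O π hGR
  refine ⟨max (max C0 0) ((c * qq O ^ (2 * C0).toNat : ℕ) : ℤ),
    le_trans (le_max_right _ _) (le_max_left _ _), ?_⟩
  intro D h hOk hT ϖ hUni y hy d Ed hTw f hf hPat
  obtain ⟨⟨hd, hodd, heven, -⟩, hdE, -⟩ := hTw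
  obtain ⟨α, hU, hns, hTy⟩ := hPat
  have hcop := hU.1
  have hN := hU.2.1
  have hπ0 := hGR.pi_ne
  have hπO := hGR.pi_mem
  have hinj : Function.Injective (algebraMap R K) := IsFractionRing.injective R K
  have hdK : algebraMap R K d ≠ 0 := fun h0 => hd (hinj (by rw [h0, map_zero]))
  have hm : f.Monic := hf.1.1
  have hdeg : f.natDegree = 2 * g + 1 := hf.1.2.1
  obtain ⟨Λ, hΛE, hΛd, hΛ1, hΛT⟩ := hLATY R K hGR.two hGR.fin g f α D.T D.c ϖ D.γ y d hg hm hdeg
    hUni hd (fun P _ => two_notMem hGR P) hOk.2.1 hf.2.2.1 hy hodd heven hU hTy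
  obtain ⟨gi, hgi, hgiG, hgiS⟩ := infk R K O π hGR g D h hOk.2.2.2.1 hOk.2.2.2.2.1 hOk.2.2.2.2.2
    f hf α hcop hN
  obtain ⟨E, e, hE, hEΛ, he, heC, hEO⟩ := hC0 Λ (gr 0 (2 * g + 1) (fk K f) α) gi (gr_symm _ _)
    hΛE hΛd hgi hgiG
  -- the matrices
  have hGex : ∀ i j : Fin (2 * g + 1), ∃ a : R,
      algebraMap R K a = (Eᵀ * gr 0 (2 * g + 1) (fk K f) α * E) i j := fun i j => by
    rw [entry]
    exact (hΛd _).1 (hEΛ j) _ (hEΛ i)
  have hSex : ∀ i j : Fin (2 * g + 1), ∃ a : R,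
      algebraMap R K a = (algebraMap R K d • (Eᵀ * gr 1 (2 * g + 1) (fk K f) α * E)) i j :=
    fun i j => by
    rw [Matrix.smul_apply, smul_eq_mul, entry]
    exact (hΛ1 _ (hEΛ i) _ (hEΛ j)).2
  choose G hG using hGex
  choose S hS using hSex
  obtain ⟨G', hG'⟩ : ∃ G' : Matrix (Fin (2 * g + 1)) (Fin (2 * g + 1)) R, G' = Matrix.of G :=
    ⟨_, rfl⟩
  obtain ⟨S', hS'⟩ : ∃ S' : Matrix (Fin (2 * g + 1)) (Fin (2 * g + 1)) R, S' = Matrix.of S :=
    ⟨_, rfl⟩
  have hMG : Eᵀ * gr 0 (2 * g + 1) (fk K f) α * E = G'.map (algebraMap R K) := by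
    refine Matrix.ext fun i j => ?_
    rw [hG', Matrix.map_apply]
    exact (hG i j).symm
  have hMS : algebraMap R K d • (Eᵀ * gr 1 (2 * g + 1) (fk K f) α * E) =
      S'.map (algebraMap R K) := by
    refine Matrix.ext fun i j => ?_
    rw [hS', Matrix.map_apply]
    exact (hS i j).symm
  have hGt : G'ᵀ = G' := by
    have h1 : (G'ᵀ).map (algebraMap R K) = G'.map (algebraMap R K) := by
      rw [Matrix.transpose_map, ← hMG, Matrix.transpose_mul, Matrix.transpose_mul,
        Matrix.transpose_transpose, gr_symm, Matrix.mul_assoc]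
    refine Matrix.ext fun i j => hinj ?_
    exact congrFun (congrFun h1 i) j
  have hSt : S'ᵀ = S' := by
    have h1 : (S'ᵀ).map (algebraMap R K) = S'.map (algebraMap R K) := by
      rw [Matrix.transpose_map, ← hMS, Matrix.transpose_smul, Matrix.transpose_mul,
        Matrix.transpose_mul, Matrix.transpose_transpose, gr_symm, Matrix.mul_assoc]
    refine Matrix.ext fun i j => hinj ?_
    exact congrFun (congrFun h1 i) j
  have hdet : ∀ A : Matrix (Fin (2 * g + 1)) (Fin (2 * g + 1)) R,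
      (A.map (algebraMap R K)).det = algebraMap R K A.det := fun A => by
    rw [RingHom.map_det]
    rfl
  -- at infinity
  obtain ⟨Dg, hDg⟩ : ∃ Dg : Matrix (Fin (2 * g + 1)) (Fin (2 * g + 1)) K,
    Dg = Matrix.diagonal (fun i => π ^ e i) := ⟨_, rfl⟩
  have hDt : Dgᵀ = Dg := by rw [hDg, Matrix.diagonal_transpose]
  obtain ⟨κ, hκ⟩ : ∃ κ, κ = gi⁻¹ * E * Dg := ⟨_, rfl⟩
  have hκO : MIn (O : Set K) κ := fun i j => by
    rw [hκ, hDg, Matrix.mul_diagonal]
    exact hEO i j
  have hEκ : E * Dg = gi * κ := by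
    rw [hκ, Matrix.mul_assoc, ← Matrix.mul_assoc gi,
      Matrix.mul_nonsing_inv _ (isUnit_iff_ne_zero.2 hgi), Matrix.one_mul]
  have hsand : ∀ A : Matrix (Fin (2 * g + 1)) (Fin (2 * g + 1)) K,
      Dg * (Eᵀ * A * E) * Dg = κᵀ * (giᵀ * A * gi) * κ := fun A => by
    have h1 : Dg * (Eᵀ * A * E) * Dg = (E * Dg)ᵀ * A * (E * Dg) := by
      rw [Matrix.transpose_mul, hDt]
      simp only [Matrix.mul_assoc]
    rw [h1, hEκ, Matrix.transpose_mul]
    simp only [Matrix.mul_assoc]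
  have hDD : ∀ (A : Matrix (Fin (2 * g + 1)) (Fin (2 * g + 1)) K) (i j),
      (Dg * A * Dg) i j = A i j * π ^ (e i + e j) := fun A i j => by
    rw [hDg, Matrix.mul_diagonal, Matrix.diagonal_mul, zpow_add₀ hπ0]
    ring
  have hGO : ∀ i j, G' i j ∈ Lm R O π (e i + e j) := fun i j => by
    show algebraMap R K (G' i j) * π ^ (e i + e j) ∈ O
    have h1 : algebraMap R K (G' i j) = (Eᵀ * gr 0 (2 * g + 1) (fk K f) α * E) i j := by
      rw [hMG]
      rfl
    rw [h1, ← hDD, hsand]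
    exact MIn_mul (MIn_mul (MIn_tr hκO) hgiG.1) hκO i j
  have hSK : ∀ i j, algebraMap R K (S' i j) =
      algebraMap R K d * (Eᵀ * gr 1 (2 * g + 1) (fk K f) α * E) i j := fun i j => by
    have h1 : (S'.map (algebraMap R K)) i j =
        (algebraMap R K d • (Eᵀ * gr 1 (2 * g + 1) (fk K f) α * E)) i j := by
      rw [hMS]
    exact h1
  have hSO : ∀ i j, S' i j ∈ Lm R O π (e i + e j + h + Ed) := fun i j => by
    show algebraMap R K (S' i j) * π ^ (e i + e j + h + Ed) ∈ O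
    have h2 : (Eᵀ * gr 1 (2 * g + 1) (fk K f) α * E) i j * π ^ (e i + e j + h) =
        (κᵀ * (π ^ h • (giᵀ * gr 1 (2 * g + 1) (fk K f) α * gi)) * κ) i j := by
      rw [zpow_add₀ hπ0, ← mul_assoc, ← hDD, hsand, Matrix.mul_smul, Matrix.smul_mul,
        Matrix.smul_apply, smul_eq_mul, zpow_natCast]
      ring
    have h3 : algebraMap R K (S' i j) * π ^ (e i + e j + h + Ed) =
        (algebraMap R K d * π ^ (Ed : ℤ)) *
          ((Eᵀ * gr 1 (2 * g + 1) (fk K f) α * E) i j * π ^ (e i + e j + h)) := by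
      rw [hSK, zpow_add₀ hπ0 _ (Ed : ℤ)]
      ring
    rw [h3, h2]
    exact O.mul_mem _ _ hdE (MIn_mul (MIn_mul (MIn_tr hκO) hgiS) hκO i j)
  -- the determinant
  have hGam : (gr 0 (2 * g + 1) (fk K f) α).det ≠ 0 := fun h0 => hgiG.2.1 (by
    rw [Matrix.det_mul, Matrix.det_mul, h0, mul_zero, zero_mul])
  have hKd : (G'.map (algebraMap R K)).det ≠ 0 := by
    rw [← hMG, Matrix.det_mul, Matrix.det_mul, Matrix.det_transpose]
    exact mul_ne_zero (mul_ne_zero hE hGam) hE
  have hGd : G'.det ≠ 0 := fun h0 => hKd (by rw [hdet, h0, map_zero])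
  have hdetL : G'.det ∈ Lm R O π (2 * ∑ i, e i) := by
    show algebraMap R K G'.det * π ^ (2 * ∑ i, e i) ∈ O
    have h1 : algebraMap R K G'.det * π ^ (2 * ∑ i, e i) =
        (κᵀ * (giᵀ * gr 0 (2 * g + 1) (fk K f) α * gi) * κ).det := by
      rw [← hsand, Matrix.det_mul, Matrix.det_mul, hMG, hdet, hDg, Matrix.det_diagonal,
        prod_zpow π hπ0, two_mul (∑ i, e i), zpow_add₀ hπ0]
      ring
    rw [h1]
    exact MIn_det (MIn_mul (MIn_mul (MIn_tr hκO) hgiG.1) hκO)
  have hdetT : ∀ P ∈ D.T, G'.det ∉ P.asIdeal := fun P hP hmem => by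
    have h1 := hc (2 * C0).toNat G'.det P hGd (Lm_mono hπ0 hπO (by omega) hdetL) hmem
    have h2 := hT P hP
    have h3 : ((c * qq O ^ (2 * C0).toNat : ℕ) : ℤ) ≤
      max (max C0 0) ((c * qq O ^ (2 * C0).toNat : ℕ) : ℤ) := le_max_right _ _
    have h4 : (Nat.card (R ⧸ P.asIdeal) : ℤ) ≤ ((c * qq O ^ (2 * C0).toNat : ℕ) : ℤ) := by
      exact_mod_cast h1
    omega
  have hfm : (fk K f).Monic := hm.map _
  have hfd : (fk K f).natDegree = 2 * g + 1 := by rw [hm.natDegree_map, hdeg]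
  have hrep : Rep (2 * g + 1) (fk K f) α (G'.map (algebraMap R K))
      (Eᵀ * gr 1 (2 * g + 1) (fk K f) α * E) := by
    rw [← hMG]
    exact Pool.HYP.H2.rep_comb _ _ _
  refine ⟨e, G', S', ⟨he, fun k => ?_, ?_⟩, hGt, hSt, hGO, hSO, hGd, ?_, fun P hP i j => ?_,
    fun P hP => ?_, fun hz => ?_⟩
  · by_contra hneg
    push Not at hneg
    refine hGd (zbd R (2 * g + 1) (k : ℕ) G' k.isLt fun i j hi hj => ?_)
    have hi' : i ≤ k := hi
    have hj' : j ≤ k.rev := by
      show (j : ℕ) ≤ (k.rev : ℕ)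
      rw [Fin.val_rev]
      omega
    have h1 := he hi'
    have h2 := he hj'
    exact hGR.small _ (Lm_mono hπ0 hπO (by omega) (hGO i j))
  · have : C0 ≤ max (max C0 0) ((c * qq O ^ (2 * C0).toNat : ℕ) : ℤ) :=
      le_trans (le_max_left _ _) (le_max_left _ _)
    omega
  · have h3 := pen_twist _ _ _ hdK hfd (Pool.HYP.chp K (2 * g + 1) (fk K f) α
      (G'.map (algebraMap R K)) (Eᵀ * gr 1 (2 * g + 1) (fk K f) α * E) hfm hfd hrep hKd)
    have h4 : pen (G'.map (algebraMap R K)) (S'.map (algebraMap R K)) =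
        (Polynomial.mapRingHom (algebraMap R K)).mapMatrix (pen G' S') := by
      refine Matrix.ext fun i j => ?_
      show X * C ((algebraMap R K) (G' i j)) - C ((algebraMap R K) (S' i j))
        = Polynomial.map (algebraMap R K) (X * C (G' i j) - C (S' i j))
      rw [Polynomial.map_sub, Polynomial.map_mul, Polynomial.map_X, Polynomial.map_C,
        Polynomial.map_C]
    rw [hMS, h4, ← RingHom.map_det, hdet] at h3
    refine Polynomial.map_injective _ hinj ?_
    rw [Polynomial.map_mul, Polynomial.map_C, Polynomial.map_scaleRoots f d (algebraMap R K) (by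
      rw [hm.leadingCoeff, map_one]
      exact one_ne_zero)]
    exact h3
  · have h3 : algebraMap R K (S' i j) / algebraMap R K d =
        (Eᵀ * gr 1 (2 * g + 1) (fk K f) α * E) i j := by
      rw [hSK, mul_div_cancel_left₀ _ hdK]
    rw [h3, entry]
    exact (hΛ1 _ (hEΛ i) _ (hEΛ j)).1 P hP
  · exact hΛT P hP E G' S' hEΛ (hdetT P hP) hMG hMS
  · refine hns (Pool.HYP.dist K g (fk K f) α (G'.map (algebraMap R K))
      (Eᵀ * gr 1 (2 * g + 1) (fk K f) α * E)
      hg hfm hfd (irrk R K O π hGR g D h hg hOk f hf).1 hN hKd hrep fun i j hi hj => ?_)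
    obtain ⟨h3, h4⟩ := hz i j hi hj
    constructor
    · show algebraMap R K (G' i j) = 0
      rw [h3, map_zero]
    · have h5 := hSK i j
      rw [h4, map_zero] at h5
      exact (mul_eq_zero.1 h5.symm).resolve_left hdK

end Pool.PRK
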