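import Pool.Agent.H79.PRK.S6
import Pool.Agent.H75.PRL.FIP

/-!
# PRK, FIPK: from the law for one polynomial to the law for a family
-/

set_option autoImplicit false

namespace Pool.PRK

open Polynomial Matrix Pool.HYP Pool.TOW Pool.AVS Pool.T1 IsDedekindDomain

namespace Fipk73

section

variable {R : Type} [CommRing R] [IsDomain R] {K : Type} [Field K] [Algebra R K]
  {O : ValuationSubring K}

open Classical in
/-- Counting pairs. -/
theorem cnt (D : Dat R O) (dS : Finset (HeightOneSpectrum R) → R) {A : Set R[X]} (hA : A.Finite)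
    (hinj : ∀ S ⊆ D.T, ∀ S' ⊆ D.T, ∀ f ∈ A, ∀ f' ∈ A,
      fk K (f.scaleRoots (dS S)) = fk K (f'.scaleRoots (dS S')) → S = S' ∧ f = f')
    (q : K[X] → Prop) :
    {z | z ∈ ZA K D dS A ∧ q z}.ncard =
      ∑ f ∈ hA.toFinset, {S | S ∈ Sl D.T ∧ q (fk K (f.scaleRoots (dS S)))}.ncard := by
  obtain ⟨A', hA'⟩ : ∃ A' : Finset R[X], A' = hA.toFinset := ⟨_, rfl⟩
  have hmA : ∀ f, f ∈ A' ↔ f ∈ A := fun f => by rw [hA', hA.mem_toFinset]
  rw [← hA']
  have hsub : ∀ S ∈ Sl D.T, S ⊆ D.T := by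
    intro S hS
    unfold Sl at hS
    rw [Finset.mem_filter, Finset.mem_powerset] at hS
    exact hS.1
  have hi : Set.InjOn (fun x : R[X] × Finset (HeightOneSpectrum R) =>
      fk K (x.1.scaleRoots (dS x.2))) (A' ×ˢ Sl D.T : Finset _) := by
    rintro ⟨f, S⟩ hx ⟨f', S'⟩ hx' hxx
    rw [Finset.mem_coe, Finset.mem_product] at hx hx'
    have h4 := hinj S (hsub S hx.2) S' (hsub S' hx'.2) f ((hmA f).1 hx.1) f' ((hmA f').1 hx'.1) hxx
    exact Prod.ext h4.2 h4.1
  have hset : {z | z ∈ ZA K D dS A ∧ q z} =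
      (((A' ×ˢ Sl D.T).filter fun x => q (fk K (x.1.scaleRoots (dS x.2)))).image
        (fun x : R[X] × Finset (HeightOneSpectrum R) =>
          fk K (x.1.scaleRoots (dS x.2))) : Finset _) := by
    ext z
    simp only [Finset.coe_image, Finset.coe_filter, Finset.mem_product, Set.mem_image]
    constructor
    · rintro ⟨⟨f, hf, S, hS, rfl⟩, hq⟩
      exact ⟨(f, S), ⟨⟨(hmA f).2 hf, hS⟩, hq⟩, rfl⟩
    · rintro ⟨⟨f, S⟩, ⟨⟨hf, hS⟩, hq⟩, rfl⟩
      exact ⟨⟨f, (hmA f).1 hf, S, hS, rfl⟩, hq⟩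
  rw [hset, Set.ncard_coe_finset, Finset.card_image_of_injOn
    (hi.mono (by exact_mod_cast Finset.filter_subset _ _))]
  have e1 : ∀ f : R[X], {S | S ∈ Sl D.T ∧ q (fk K (f.scaleRoots (dS S)))}.ncard =
      ((Sl D.T).filter fun S => q (fk K (f.scaleRoots (dS S)))).card := by
    intro f
    rw [← Set.ncard_coe_finset]
    congr 1
    ext S
    simp
  simp only [e1]
  rw [Finset.card_filter, Finset.sum_product]
  refine Finset.sum_congr rfl fun f _ => ?_
  rw [Finset.card_filter]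

end

end Fipk73

open Fipk73

open Classical in
/-- **FIPK.** -/
theorem fipk : FIPKStmt := by
  intro hIDN hZI R _ _ K _ _ _ O π g D h hg hOk ho dS hdS ε A₀ hε hAs hfin hne hlaw
  obtain ⟨hinj, hZ⟩ := hZI R K O π g D h hg hOk dS hdS
  obtain ⟨hZfin, hZn⟩ := hZ A₀ hAs hfin
  obtain ⟨hPRpos, _, hPRsum, _, hPR0, _, _⟩ := hIDN
  obtain ⟨A, hA⟩ : ∃ A : Finset R[X], A = hfin.toFinset := ⟨_, rfl⟩
  have hmA : ∀ f, f ∈ A ↔ f ∈ A₀ := fun f => by rw [hA, hfin.mem_toFinset]
  have hAc : A₀.ncard = A.card := by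
    rw [hA]
    exact Set.ncard_eq_toFinset_card _ hfin
  have hAne : A.Nonempty := by
    obtain ⟨f, hf⟩ := hne
    exact ⟨f, (hmA f).2 hf⟩
  have hA0 : (0 : ℝ) < A.card := by exact_mod_cast hAne.card_pos
  have hS0 : 0 < (Sl D.T).card := by
    obtain ⟨k, hk⟩ := ho
    obtain ⟨U, hU, hU2⟩ := Finset.exists_subset_card_eq (s := D.T) (n := D.T.card / 2)
      (Nat.div_le_self _ _)
    refine Finset.card_pos.2 ⟨U, ?_⟩
    unfold Sl
    rw [Finset.mem_filter, Finset.mem_powerset]
    exact ⟨hU, Or.inl hU2⟩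
  have hS0' : (0 : ℝ) < (Sl D.T).card := by exact_mod_cast hS0
  have hcnt := fun q => cnt (K := K) D dS hfin
    (fun S hS S' hS' f hf f' hf' => hinj S hS S' hS' f (hAs hf) f' (hAs hf')) q
  rw [← hA] at hcnt
  have hZc : (ZA K D dS A₀).ncard = (Sl D.T).card * A.card := by rw [hZn, hAc]
  have hZ0 : (0 : ℝ) < (ZA K D dS A₀).ncard := by
    rw [hZc]
    push_cast
    positivity
  -- proportions
  have hprop : ∀ q : K[X] → Prop,
      ({z | z ∈ ZA K D dS A₀ ∧ q z}.ncard : ℝ) / (ZA K D dS A₀).ncard =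
      (∑ f ∈ A, (({S | S ∈ Sl D.T ∧ q (fk K (f.scaleRoots (dS S)))}.ncard : ℝ) /
        (Sl D.T).card)) / A.card := by
    intro q
    rw [hcnt q, hZc]
    push_cast
    rw [← Finset.sum_div, div_div]
  have hmain : ∀ B : ℕ, ∑ r ∈ Finset.range B,
      |({z | z ∈ ZA K D dS A₀ ∧ (SelG z).ncard = 2 ^ r}.ncard : ℝ) / (ZA K D dS A₀).ncard -
        PRL.PR r| ≤ 3 * ε := by
    intro B
    have h5 := PRL.FIP.avg A hAne
      (fun f r => ({S | S ∈ Sl D.T ∧
        (SelG (fk K (f.scaleRoots (dS S)))).ncard = 2 ^ r}.ncard : ℝ) /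
        (Sl D.T).card) PRL.PR (LawT K ε D dS) ε 2 ε B (by norm_num) hε.le
      (fun f _ hg => hg.2.2 B) ?_ ?_
    · refine le_trans (le_of_eq (Finset.sum_congr rfl fun r _ => ?_)) (h5.trans (by linarith))
      rw [hprop (fun z => (SelG z).ncard = 2 ^ r)]
    · intro f _
      have h6 : ∑ r ∈ Finset.range B,
          ({S | S ∈ Sl D.T ∧
            (SelG (fk K (f.scaleRoots (dS S)))).ncard = 2 ^ r}.ncard : ℝ) /
            (Sl D.T).card ≤ 1 := by
        rw [← Finset.sum_div, div_le_one hS0']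
        have h7 : ∀ r, {S | S ∈ Sl D.T ∧
            (SelG (fk K (f.scaleRoots (dS S)))).ncard = 2 ^ r}.ncard =
            ((Sl D.T).filter fun S => (SelG (fk K (f.scaleRoots (dS S)))).ncard = 2 ^ r).card := by
          intro r
          rw [← Set.ncard_coe_finset]
          congr 1
          ext S
          simp
        simp only [h7]
        rw [← Nat.cast_sum]
        have h8 := Finset.card_biUnion (s := Finset.range B)
          (t := fun r => (Sl D.T).filter fun S =>
            (SelG (fk K (f.scaleRoots (dS S)))).ncard = 2 ^ r) ?_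
        · rw [← h8]
          exact_mod_cast Finset.card_le_card (Finset.biUnion_subset.2 fun r _ =>
            Finset.filter_subset _ _)
        · intro r _ r' _ hrr
          rw [Function.onFun, Finset.disjoint_left]
          intro S hS hS'
          rw [Finset.mem_filter] at hS hS'
          exact hrr (Nat.pow_right_injective (le_refl 2) (hS.2.symm.trans hS'.2))
      have h9 : ∑ r ∈ Finset.range B, PRL.PR r ≤ 1 :=
        sum_le_hasSum _ (fun r _ => (hPRpos r).le) hPRsum
      calc _ ≤ ∑ r ∈ Finset.range B,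
            (({S | S ∈ Sl D.T ∧
              (SelG (fk K (f.scaleRoots (dS S)))).ncard = 2 ^ r}.ncard : ℝ) /
              (Sl D.T).card + PRL.PR r) := by
            refine Finset.sum_le_sum fun r _ => ?_
            rw [abs_le]
            have := (hPRpos r).le
            have h10 : (0 : ℝ) ≤ ({S | S ∈ Sl D.T ∧
              (SelG (fk K (f.scaleRoots (dS S)))).ncard = 2 ^ r}.ncard : ℝ) /
                (Sl D.T).card := by positivity
            constructor <;> linarith
        _ ≤ 2 := by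
            rw [Finset.sum_add_distrib]
            linarith
    · rw [hAc] at hlaw
      simpa only [hmA] using hlaw
  refine ⟨hmain, ?_, ?_⟩
  · have h5 := PRL.FIP.avg A hAne
      (fun f _ => (({S | S ∈ Sl D.T ∧ ∃ r : ℕ, Even r ∧
        (SelG (fk K (f.scaleRoots (dS S)))).ncard = 2 ^ r}.ncard : ℝ) / (Sl D.T).card))
      (fun _ => 1 / 2) (LawT K ε D dS) 0 1 ε 1 zero_le_one le_rfl ?_ ?_ ?_
    · rw [Finset.sum_range_one] at h5
      rw [hprop (fun z => ∃ r : ℕ, Even r ∧ (SelG z).ncard = 2 ^ r)]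
      linarith
    · intro f _ hg
      rw [Finset.sum_range_one]
      have h6 := hg.2.1
      have h7 : (2 : ℝ) * ({S | S ∈ Sl D.T ∧ ∃ r : ℕ, Even r ∧
        (SelG (fk K (f.scaleRoots (dS S)))).ncard = 2 ^ r}.ncard : ℝ) = (Sl D.T).card := by
        exact_mod_cast h6
      rw [← h7, abs_nonpos_iff]
      have h8 : ({S | S ∈ Sl D.T ∧ ∃ r : ℕ, Even r ∧
        (SelG (fk K (f.scaleRoots (dS S)))).ncard = 2 ^ r}.ncard : ℝ) ≠ 0 := by
        intro h
        rw [h, mul_zero] at h7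
        exact hS0'.ne h7
      field_simp
      norm_num
    · intro f _
      rw [Finset.sum_range_one]
      have h6 : {S | S ∈ Sl D.T ∧ ∃ r : ℕ, Even r ∧
          (SelG (fk K (f.scaleRoots (dS S)))).ncard = 2 ^ r}.ncard ≤ (Sl D.T).card := by
        rw [← Set.ncard_coe_finset]
        exact Set.ncard_le_ncard (fun S hS => hS.1) (Finset.finite_toSet _)
      have h7 : ({S | S ∈ Sl D.T ∧ ∃ r : ℕ, Even r ∧
          (SelG (fk K (f.scaleRoots (dS S)))).ncard = 2 ^ r}.ncard : ℝ) /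
            (Sl D.T).card ≤ 1 := by
        rw [div_le_one hS0']
        exact_mod_cast h6
      have h8 : (0 : ℝ) ≤ ({S | S ∈ Sl D.T ∧ ∃ r : ℕ, Even r ∧
          (SelG (fk K (f.scaleRoots (dS S)))).ncard = 2 ^ r}.ncard : ℝ) /
            (Sl D.T).card := by positivity
      rw [abs_le]
      constructor <;> linarith
    · rw [hAc] at hlaw
      simpa only [hmA] using hlaw
  · have h3 := hmain 1
    rw [Finset.sum_range_one, pow_zero] at h3
    have h4 := (abs_le.1 h3).1
    have h5 : (0.2097 - 3 * ε) ≤ ({z | z ∈ ZA K D dS A₀ ∧ (SelG z).ncard = 1}.ncard : ℝ) /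
        (ZA K D dS A₀).ncard := by linarith
    rw [le_div_iff₀ hZ0] at h5
    exact h5

end Pool.PRK
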