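import Pool.Agent.H79.PRK.S1
import Pool.Agent.H30.T1.LATTK

/-!
# PRK, LATY: the lattice of a class with given types at the primes of `T`
-/

set_option autoImplicit false
set_option linter.overlappingInstances false
set_option linter.unusedSectionVars false

namespace Pool.PRK

open Polynomial Matrix Pool.HYP Pool.TOW Pool.AVS Pool.T1 IsDedekindDomain

namespace Laty73

section Basic

variable {R : Type} [CommRing R] {K : Type} [Field K] [Algebra R K] {P : HeightOneSpectrum R}

theorem rp_int (z : ℤ) : (z : K) ∈ RP K P := by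
  have := rp_alg (K := K) (P := P) (z : R)
  rwa [map_intCast] at this

theorem rp_det {n : ℕ} {A : Matrix (Fin n) (Fin n) K} (hA : MIn (RP K P) A) :
    A.det ∈ RP K P := by
  rw [Matrix.det_apply']
  exact rp_sum _ _ fun σ _ => rp_mul (rp_int _) (rp_prod _ _ fun i _ => hA (σ i) i)

theorem rp_adj {n : ℕ} {A : Matrix (Fin n) (Fin n) K} (hA : MIn (RP K P) A) :
    MIn (RP K P) A.adjugate := by
  intro i j
  rw [Matrix.adjugate_apply]
  apply rp_det
  intro k l
  rw [Matrix.updateRow_apply]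
  split_ifs with h
  · by_cases hl : l = i
    · rw [hl, Pi.single_eq_same]
      exact rp_one
    · rw [Pi.single_eq_of_ne hl]
      exact rp_zero
  · exact hA k l

/-- A vector is regular if its image under an invertible matrix is. -/
theorem rp_solve {n : ℕ} {A : Matrix (Fin n) (Fin n) K} (hA : GIn (RP K P) A) {v : Fin n → K}
    (hv : ∀ i, (A *ᵥ v) i ∈ RP K P) (i : Fin n) : v i ∈ RP K P := by
  have h1 : v = (A.det)⁻¹ • (A.adjugate *ᵥ (A *ᵥ v)) := by
    rw [Matrix.mulVec_mulVec, Matrix.adjugate_mul, Matrix.smul_mulVec, Matrix.one_mulVec,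
      smul_smul, inv_mul_cancel₀ hA.2.1, one_smul]
  rw [h1]
  exact rp_mul hA.2.2.2 (rp_mulVec (rp_adj hA.1) hv i)

theorem min_smul {n : ℕ} {A : Matrix (Fin n) (Fin n) K} {x : K} (hx : x ∈ RP K P)
    (hA : MIn (RP K P) A) : MIn (RP K P) (x • A) := fun i j => by
  rw [Matrix.smul_apply, smul_eq_mul]
  exact rp_mul hx (hA i j)

theorem min_gr {n : ℕ} {f : R[X]} (hf : f.Monic) (k : ℕ) (p : R[X]) :
    MIn (RP K P) (gr k n (fk K f) (fk K p)) := by
  rw [fk, fk, ← gr_map _ hf]
  exact rp_map _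

end Basic

section Ded

variable {R : Type} [CommRing R] [IsDedekindDomain R] {K : Type} [Field K] [Algebra R K]
  [IsFractionRing R K] {P : HeightOneSpectrum R}

theorem gin_gr {n : ℕ} {f p : R[X]} (hf : f.Monic) (hn : f.natDegree = n)
    (hc : IsCoprime (md P.asIdeal p) (md P.asIdeal f)) :
    GIn (RP K P) (gr 0 n (fk K f) (fk K p)) := by
  have hd : (gr 0 n f p).det ∉ P.asIdeal := (lock R K P n f p hf hn hc).1
  have h1 : (gr 0 n (fk K f) (fk K p)).det = algebraMap R K (gr 0 n f p).det := by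
    rw [fk, fk, ← gr_map _ hf, RingHom.map_det]
    rfl
  refine ⟨min_gr hf 0 p, ?_⟩
  rw [h1]
  refine ⟨alg_ne fun h => hd ?_, rp_alg _, rp_inv hd⟩
  rw [h]
  exact P.asIdeal.zero_mem

theorem gin_smul {n : ℕ} {A : Matrix (Fin n) (Fin n) K} {m : R} (hm : m ∉ P.asIdeal)
    (hA : GIn (RP K P) A) : GIn (RP K P) ((algebraMap R K m)⁻¹ • A) := by
  have hm0 : algebraMap R K m ≠ 0 := alg_ne fun h => hm (by
    rw [h]
    exact P.asIdeal.zero_mem)
  have hpow : ∀ (x : K) (k : ℕ), x ∈ RP K P → x ^ k ∈ RP K P := by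
    intro x k hx
    induction k with
    | zero =>
      rw [pow_zero]
      exact rp_one
    | succ k ih =>
      rw [pow_succ]
      exact rp_mul ih hx
  refine ⟨min_smul (rp_inv hm) hA.1, ?_⟩
  rw [Matrix.det_smul, Fintype.card_fin]
  refine ⟨mul_ne_zero (pow_ne_zero _ (inv_ne_zero hm0)) hA.2.1,
    rp_mul (hpow _ _ (rp_inv hm)) hA.2.2.1, ?_⟩
  rw [mul_inv, ← inv_pow, inv_inv]
  exact rp_mul (hpow _ _ (rp_alg m)) hA.2.2.2

end Ded

end Laty73

open Laty73

/-- **LATY.** -/
theorem laty (hLRM : LRMKStmt) (hLRS : LRSKStmt) (hLUS : LUSKStmt) : LATYStmt := by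
  classical
  intro R _ _ K _ _ _ _h2 hfin g f α T c ϖ γ y d hg hf hn hUni hd h2T hOk hZer hy hodd heven hU hTy
  obtain ⟨n, hnn⟩ : ∃ n, n = 2 * g + 1 := ⟨_, rfl⟩
  obtain ⟨hc, hN, hUS⟩ := hU
  have hodd' : ∀ P, P ∈ odd T y ↔ P ∈ T ∧ (y P).1 = 1 := by
    intro P
    unfold odd
    rw [Finset.mem_filter]
  -- outside the divisors of `d₀ δ` the polynomial `α` is a unit
  obtain ⟨d₀, h₁, hd0, hh₁⟩ := Latk.clear (R := R) α
  have hd0' : algebraMap R K d₀ ≠ 0 := alg_ne hd0
  have hc1 : IsCoprime (fk K h₁) (fk K f) := by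
    rw [← hh₁]
    have : IsUnit (C (algebraMap R K d₀) : K[X]) := isUnit_C.2 hd0'.isUnit
    exact (isCoprime_mul_unit_left_left this α (fk K f)).2 hc
  obtain ⟨a₁, b₁, δ, hδ, hab⟩ := Latk.clear2 hc1
  have hI : Ideal.span {d₀ * δ} ≠ (0 : Ideal R) := by
    rw [Ideal.zero_eq_bot, Ne, Ideal.span_singleton_eq_bot]
    exact mul_ne_zero hd0 hδ
  obtain ⟨S, hS⟩ : ∃ S : Finset (HeightOneSpectrum R), S = T ∪ (Ideal.finite_factors hI).toFinset :=
    ⟨_, rfl⟩
  have hST : ∀ P, P ∉ S → P ∉ T := fun P hP hPT => hP (by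
    rw [hS]
    exact Finset.mem_union_left _ hPT)
  have hSD : ∀ P : HeightOneSpectrum R, P ∉ S → d₀ * δ ∉ P.asIdeal := by
    intro P hPS hPD
    apply hPS
    rw [hS, Finset.mem_union, Set.Finite.mem_toFinset]
    right
    show P.asIdeal ∣ Ideal.span {d₀ * δ}
    rw [Ideal.dvd_span_singleton]
    exact hPD
  have hloc : ∀ P : HeightOneSpectrum R, ∃ b : Matrix (Fin (2 * g + 1)) (Fin (2 * g + 1)) K,
      b.det ≠ 0 ∧ (P ∉ S → b = 1) ∧
      GIn (RP K P) (bᵀ * gr 0 (2 * g + 1) (fk K f) α * b) ∧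
      (P ∉ odd T y → MIn (RP K P) (bᵀ * gr 1 (2 * g + 1) (fk K f) α * b)) ∧
      MIn (RP K P) (algebraMap R K d • (bᵀ * gr 1 (2 * g + 1) (fk K f) α * b)) ∧
      (P ∈ T → ∀ (E : Matrix (Fin (2 * g + 1)) (Fin (2 * g + 1)) K)
        (G S : Matrix (Fin (2 * g + 1)) (Fin (2 * g + 1)) R), MIn (RP K P) (b⁻¹ * E) →
        G.det ∉ P.asIdeal →
        Eᵀ * gr 0 (2 * g + 1) (fk K f) α * E = G.map (algebraMap R K) →
        algebraMap R K d • (Eᵀ * gr 1 (2 * g + 1) (fk K f) α * E) = S.map (algebraMap R K) →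
        LocS g P.asIdeal d (c P) (γ P) f (y P) G S) := by
    intro P
    by_cases hPT : P ∈ T
    · have hPS : P ∈ S := by
        rw [hS]
        exact Finset.mem_union_left _ hPT
      by_cases h0 : (y P).1 = 0
      · have hP1 : P ∉ odd T y := by
          rw [hodd', h0]
          exact fun h => absurd h.2 (by decide)
        have hyP : y P = (0, (y P).2) := Prod.ext h0 rfl
        have hTy' : TyK P.asIdeal (ϖ P) (c P) (γ P) f (0, (y P).2) α := by
          rw [← hyP]
          exact hTy P hPT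
        obtain ⟨κ, hκ, hκ0, hκ1, hκL⟩ := hLUS R K P (h2T P hPT) (hfin _ P.ne_bot) (ϖ P) d (c P)
          (γ P) f g α (y P).2 hg hf hn (hUni P hPT).1 (hUni P hPT).2 (heven P hPT hP1)
          (hOk P hPT) (hZer P hPT) hc hN hTy'
        refine ⟨κ, hκ, fun h => absurd hPS h, hκ0, fun _ => hκ1, min_smul (rp_alg d) hκ1,
          fun _ E G S' h1 h3 h4 h5 => ⟨fun _ => hκL E G S' h1 h3 h4 h5, fun h => ?_⟩⟩
        rw [h0] at h
        exact absurd h (by decide)
      · have h1 : (y P).1 = 1 := by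
          revert h0
          generalize (y P).1 = z
          revert z
          decide
        have hP1 : P ∈ odd T y := (hodd' P).2 ⟨hPT, h1⟩
        have h2 : (y P).2 = 0 := by
          have h3 := hy P hPT
          have h4 : (y P).2 ≠ 1 := fun h => h3 (Prod.ext h1 h)
          revert h4
          generalize (y P).2 = z
          revert z
          decide
        have hyP : y P = (1, 0) := Prod.ext h1 h2
        have hTy' : TyK P.asIdeal (ϖ P) (c P) (γ P) f (1, 0) α := by
          rw [← hyP]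
          exact hTy P hPT
        obtain ⟨κ, G₀, S₀, hκ, hκ0, hG₀, hS₀, e0, e1, hB⟩ := hLRM R K P (h2T P hPT)
          (hfin _ P.ne_bot) (ϖ P) d (c P) (γ P) f g α hg hf hn (hUni P hPT).1 (hUni P hPT).2
          (hodd P hP1).1 (hodd P hP1).2 (hOk P hPT) (hZer P hPT) hc hN hTy'
        refine ⟨κ, hκ, fun h => absurd hPS h, hκ0, fun h => absurd hP1 h, ?_, ?_⟩
        · intro i j
          rw [Matrix.smul_apply, smul_eq_mul]
          have hdK : algebraMap R K d ≠ 0 := alg_ne hd
          have h3 : algebraMap R K d * (κᵀ * gr 1 (2 * g + 1) (fk K f) α * κ) i j =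
              algebraMap R K d * algebraMap R K d * algebraMap R K d *
                ((algebraMap R K d * (κᵀ * gr 1 (2 * g + 1) (fk K f) α * κ) i j -
                  algebraMap R K (S₀ i j)) / algebraMap R K d ^ 3) +
              algebraMap R K (S₀ i j) := by
            field_simp
            ring
          rw [h3]
          exact rp_add (rp_mul (rp_mul (rp_mul (rp_alg d) (rp_alg d)) (rp_alg d)) (e1 i j))
            (rp_alg _)
        · intro _ E G S' h3 h4 h5 h6
          refine ⟨fun h => ?_, fun _ => hLRS R K P d (c P) (γ P) f g α κ G₀ S₀ (hodd P hP1).1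
            (hodd P hP1).2 hκ hκ0 hG₀ hS₀ e0 e1 hB E G S' h3 h4 h5 h6⟩
          exact absurd h h0
    · have hP1 : P ∉ odd T y := fun h => hPT ((hodd' P).1 h).1
      by_cases hPS : P ∈ S
      · obtain ⟨a, p, ha, ha0, ha1, hu, -⟩ := Latk.latt_loc hf hn (hUS P hPT)
        refine ⟨a, ha, fun h => absurd hPS h, ?_, fun _ => ?_, ?_, fun h => absurd h hPT⟩
        · rw [← ha0]
          exact gin_gr hf hn hu
        · rw [← ha1]
          exact min_gr hf 1 p
        · rw [← ha1]
          exact min_smul (rp_alg d) (min_gr hf 1 p)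
      · have hPD := hSD P hPS
        have hPd : d₀ ∉ P.asIdeal := fun h => hPD (P.asIdeal.mul_mem_right δ h)
        have hPδ : δ ∉ P.asIdeal := fun h => hPD (P.asIdeal.mul_mem_left d₀ h)
        have hu : IsCoprime (md P.asIdeal h₁) (md P.asIdeal f) := by
          obtain ⟨v, i, hi, hv⟩ := P.isMaximal.exists_inv hPδ
          refine ⟨md P.asIdeal (C v * a₁), md P.asIdeal (C v * b₁), ?_⟩
          have e2 : C v * a₁ * h₁ + C v * b₁ * f = 1 - C i := by
            have e3 : C v * C δ + C i = (1 : R[X]) := by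
              rw [← C_mul, ← C_add, hv, C_1]
            linear_combination (C v) * hab + e3
          have e4 := congrArg (Polynomial.mapRingHom (Ideal.Quotient.mk P.asIdeal)) e2
          rw [map_add, map_mul _ (C v * a₁), map_mul _ (C v * b₁), map_sub, map_one] at e4
          refine e4.trans ?_
          rw [Polynomial.coe_mapRingHom, Polynomial.map_C,
            Ideal.Quotient.eq_zero_iff_mem.2 hi, C_0, sub_zero]
        have hgr : ∀ k, (1 : Matrix (Fin (2 * g + 1)) (Fin (2 * g + 1)) K)ᵀ *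
            gr k (2 * g + 1) (fk K f) α * 1 =
            (algebraMap R K d₀)⁻¹ • gr k (2 * g + 1) (fk K f) (fk K h₁) := by
          intro k
          rw [Matrix.transpose_one, Matrix.one_mul, Matrix.mul_one, ← hh₁, gr_C_mul, smul_smul,
            inv_mul_cancel₀ hd0', one_smul]
        refine ⟨1, ?_, fun _ => rfl, ?_, fun _ => ?_, ?_, fun h => absurd h hPT⟩
        · rw [Matrix.det_one]
          exact one_ne_zero
        · rw [hgr]
          exact gin_smul hPd (gin_gr hf hn hu)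
        · rw [hgr]
          exact min_smul (rp_inv hPd) (min_gr hf 1 h₁)
        · rw [hgr]
          exact min_smul (rp_alg d) (min_smul (rp_inv hPd) (min_gr hf 1 h₁))
  choose b hbd hb1 hb0 hbn hbm hbT using hloc
  obtain ⟨Λ, hΛ, hE, hΛl⟩ := gluk R K (2 * g + 1) S b hbd hb1
  -- the form in local coordinates
  have hbb : ∀ (P : HeightOneSpectrum R) (x : Fin (2 * g + 1) → K), b P *ᵥ ((b P)⁻¹ *ᵥ x) = x := by
    intro P x
    rw [Matrix.mulVec_mulVec, Matrix.mul_nonsing_inv _ (isUnit_iff_ne_zero.2 (hbd P)),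
      Matrix.one_mulVec]
  have hform : ∀ (P : HeightOneSpectrum R) (M : Matrix (Fin (2 * g + 1)) (Fin (2 * g + 1)) K)
      (x v : Fin (2 * g + 1) → K),
      x ⬝ᵥ (M *ᵥ v) = ((b P)⁻¹ *ᵥ x) ⬝ᵥ (((b P)ᵀ * M * b P) *ᵥ ((b P)⁻¹ *ᵥ v)) := by
    intro P M x v
    rw [← Matrix.mulVec_mulVec, hbb, ← Matrix.mulVec_mulVec, Matrix.dotProduct_mulVec _ (b P)ᵀ,
      Matrix.vecMul_transpose, hbb]
  have hint : ∀ (P : HeightOneSpectrum R) (M : Matrix (Fin (2 * g + 1)) (Fin (2 * g + 1)) K)
      (u v : Fin (2 * g + 1) → K), MIn (RP K P) M → (∀ i, u i ∈ RP K P) →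
      (∀ i, v i ∈ RP K P) → u ⬝ᵥ (M *ᵥ v) ∈ RP K P := by
    intro P M u v hM hu hv
    exact rp_sum _ _ fun i _ => rp_mul (hu i) (rp_mulVec hM hv i)
  refine ⟨Λ, hE, ?_, ?_, ?_⟩
  · intro v
    constructor
    · intro hv x hx
      apply rp_all
      intro P
      rw [hform P]
      exact hint P _ _ _ (hb0 P).1 ((hΛ x).1 hx P) ((hΛ v).1 hv P)
    · intro hv
      rw [hΛ]
      intro P
      apply rp_solve (hb0 P)
      intro i
      obtain ⟨x, hx⟩ : ∃ x : Fin (2 * g + 1) → K, x = b P *ᵥ (Pi.single i 1) := ⟨_, rfl⟩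
      have hbx : (b P)⁻¹ *ᵥ x = Pi.single i 1 := by
        rw [hx, Matrix.mulVec_mulVec, Matrix.nonsing_inv_mul _ (isUnit_iff_ne_zero.2 (hbd P)),
          Matrix.one_mulVec]
      obtain ⟨m, hm, hmx⟩ := hΛl P x (fun j => by
        rw [hbx]
        by_cases hij : j = i
        · rw [hij, Pi.single_eq_same]
          exact rp_one
        · rw [Pi.single_eq_of_ne hij]
          exact rp_zero)
      obtain ⟨a, ha⟩ := hv (m • x) hmx
      have h2 : x ⬝ᵥ (gr 0 (2 * g + 1) (fk K f) α *ᵥ v) ∈ RP K P := by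
        refine ⟨m, hm, a, ?_⟩
        rw [ha, smul_dotProduct, Algebra.smul_def]
      rw [hform P, hbx, single_dotProduct, one_mul] at h2
      exact h2
  · intro x hx v hv
    constructor
    · intro P hP
      rw [hform P]
      exact hint P _ _ _ (hbn P hP) ((hΛ x).1 hx P) ((hΛ v).1 hv P)
    · apply rp_all
      intro P
      rw [hform P]
      have h1 := hint P _ _ _ (hbm P) ((hΛ x).1 hx P) ((hΛ v).1 hv P)
      rw [Matrix.smul_mulVec, dotProduct_smul, smul_eq_mul] at h1
      exact h1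
  · intro P hPT E G S' hE' hGd hG hS'
    exact hbT P hPT E G S' (fun i j => (hΛ _).1 (hE' j) P i) hGd hG hS'

end Pool.PRK
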